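import Pool.Agent.Work.MP_b9e699_co.Final

/-!
# Roller Coaster permutations of even length

`RCset n` is the set of permutations `π` of `Fin n` (word `π 0, …, π (n-1)`) which maximise `tt π`,
the total number of increasing and decreasing runs of all subsequences of length at least `3`.
-/

namespace Pool.Agent.Results.MP_b9e699_co.EvenCount

open Pool.Agent.RC

/-- For every even `n = 2k ≥ 4` there are exactly four Roller Coaster permutations. -/
theorem result : ∀ k : ℕ, 2 ≤ k → (RCset (2 * k)).ncard = 4 :=
  fun _ hk => RC_even hk

end Pool.Agent.Results.MP_b9e699_co.EvenCount
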