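import Pool.Agent.Work.MP_b9e699_co.Final

/-!
# Roller Coaster permutations of odd length

`RCset n` is the set of permutations `π` of `Fin n` (word `π 0, …, π (n-1)`) which maximise `tt π`,
the total number of increasing and decreasing runs of all subsequences of length at least `3`.
-/

namespace Pool.Agent.Results.MP_b9e699_co.OddCount

open Pool.Agent.RC

/-- For every odd `n = 2k+1 ≥ 3` the number of Roller Coaster permutations is a power `2 ^ j` with
`j ≤ k + 1`. -/
theorem result : ∀ k : ℕ, 1 ≤ k → ∃ j : ℕ, j ≤ k + 1 ∧ (RCset (2 * k + 1)).ncard = 2 ^ j :=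
  fun _ hk => RC_odd_pow hk

end Pool.Agent.Results.MP_b9e699_co.OddCount
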